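import Pool.Agent.MP_ca0a54_nt.H24.Spec

/-! Mertens type bounds. -/

open Finset Filter

namespace Pool.Agent.MP_ca0a54_nt.H47

open Pool.Agent.MP_ca0a54_nt.H24 ArithmeticFunction

/-- the hypothesis taken from row AR1 -/
def Lam : Prop := ∀ (α : ℝ) (N : ℕ), 0 < α → α ≤ 1 → ∑ n ∈ Finset.Icc 1 N,
    vonMangoldt n * Real.exp (-(1 + α) * Real.log n) ≤ 12 / α

lemma exp_split {n : ℕ} (hn : 1 ≤ n) (α : ℝ) :
    Real.exp (-(1 + α) * Real.log n) = Real.exp (-α * Real.log n) / n := by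
  have h : (0 : ℝ) < n := by exact_mod_cast hn
  rw [show -(1 + α) * Real.log n = -α * Real.log n - Real.log n by ring, Real.exp_sub,
    Real.exp_log h]

lemma up (h : Lam) {x : ℝ} (hx0 : 0 < x) (hx : 1 ≤ Real.log x) :
    ∑ n ∈ Icc 1 ⌊x⌋₊, vonMangoldt n / n ≤ 36 * Real.log x := by
  have hl : 0 < Real.log x := by linarith
  have h1 := h (1 / Real.log x) ⌊x⌋₊ (by positivity) (by rw [div_le_one hl]; exact hx)
  have h2 : ∑ n ∈ Icc 1 ⌊x⌋₊, vonMangoldt n / n ≤ ∑ n ∈ Icc 1 ⌊x⌋₊,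
      3 * (vonMangoldt n * Real.exp (-(1 + 1 / Real.log x) * Real.log n)) := by
    refine sum_le_sum fun n hn => ?_
    rw [mem_Icc] at hn
    have hn0 : (0 : ℝ) < n := by exact_mod_cast hn.1
    have hnx : Real.log n ≤ Real.log x :=
      Real.log_le_log hn0 ((Nat.cast_le.2 hn.2).trans (Nat.floor_le hx0.le))
    rw [exp_split hn.1]
    have h3 : Real.exp (-1) ≤ Real.exp (-(1 / Real.log x) * Real.log n) := by
      apply Real.exp_le_exp.2
      rw [neg_mul, neg_le_neg_iff, one_div_mul_eq_div, div_le_one hl]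
      exact hnx
    have h4 : 1 ≤ 3 * Real.exp (-1) := by
      rw [Real.exp_neg, ← div_eq_mul_inv, le_div_iff₀ (Real.exp_pos 1)]
      linarith [Real.exp_one_lt_d9]
    have h5 : (0 : ℝ) ≤ vonMangoldt n / n := div_nonneg vonMangoldt_nonneg hn0.le
    calc vonMangoldt n / n = vonMangoldt n / n * 1 := by ring
      _ ≤ vonMangoldt n / n * (3 * Real.exp (-(1 / Real.log x) * Real.log n)) :=
        mul_le_mul_of_nonneg_left (by linarith) h5
      _ = _ := by ring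
  rw [← mul_sum] at h2
  rw [div_div_eq_mul_div, div_one] at h1
  linarith

lemma low {N : ℕ} (hN : 1 ≤ N) : Real.log N - 1 ≤ ∑ d ∈ Icc 1 N, vonMangoldt d / d := by
  have hN0 : (0 : ℝ) < N := by exact_mod_cast hN
  have h1 : Real.log N.factorial = ∑ n ∈ Icc 1 N, Real.log n := by
    rw [← Finset.prod_Ico_id_eq_factorial, Nat.cast_prod, Real.log_prod]
    · rfl
    · intro x hx
      have := (mem_Ico.1 hx).1
      positivity
  have h2 : ∑ n ∈ Icc 1 N, Real.log n =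
      ∑ d ∈ Icc 1 N, vonMangoldt d * (((Ioc 0 N).filter fun n => d ∣ n).card : ℝ) := by
    have : ∀ n ∈ Icc 1 N, Real.log n = ∑ d ∈ Icc 1 N, if d ∣ n then vonMangoldt d else 0 := by
      intro n hn
      rw [mem_Icc] at hn
      rw [← vonMangoldt_sum, ← sum_filter]
      congr 1
      ext d
      simp only [Nat.mem_divisors, mem_filter, mem_Icc]
      constructor
      · rintro ⟨h, h0⟩
        exact ⟨⟨Nat.pos_of_dvd_of_pos h hn.1, (Nat.le_of_dvd hn.1 h).trans hn.2⟩, h⟩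
      · rintro ⟨_, h⟩
        exact ⟨h, by omega⟩
    rw [sum_congr rfl this, sum_comm]
    refine sum_congr rfl fun d _ => ?_
    rw [← sum_filter, sum_const, nsmul_eq_mul, mul_comm]
    rfl
  have h3 : ∑ d ∈ Icc 1 N, vonMangoldt d * (((Ioc 0 N).filter fun n => d ∣ n).card : ℝ) ≤
      N * ∑ d ∈ Icc 1 N, vonMangoldt d / d := by
    rw [mul_sum]
    refine sum_le_sum fun d _ => ?_
    rw [Nat.Ioc_filter_dvd_card_eq_div]
    calc vonMangoldt d * ((N / d : ℕ) : ℝ) ≤ vonMangoldt d * ((N : ℝ) / d) :=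
          mul_le_mul_of_nonneg_left Nat.cast_div_le vonMangoldt_nonneg
      _ = _ := by ring
  have h4 : N * Real.log N - N ≤ Real.log N.factorial := by
    have h5 := Real.pow_div_factorial_le_exp (N : ℝ) hN0.le N
    have h6 : (0 : ℝ) < N.factorial := by exact_mod_cast N.factorial_pos
    have h7 := Real.log_le_log (by positivity) h5
    rw [Real.log_exp, Real.log_div (by positivity) h6.ne', Real.log_pow] at h7
    linarith
  have : N * (Real.log N - 1) ≤ N * ∑ d ∈ Icc 1 N, vonMangoldt d / d := by linarith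
  exact le_of_mul_le_mul_left this hN0

lemma pp : ∃ C₀ : ℝ, 0 ≤ C₀ ∧ ∀ N : ℕ,
    ∑ d ∈ (Icc 1 N).filter (fun d => ¬ d.Prime), vonMangoldt d / d ≤ C₀ := by
  have hs : Summable fun m : ℕ => 4 * (1 / (m : ℝ) ^ (3 / 2 : ℝ)) :=
    (Real.summable_one_div_nat_rpow.2 (by norm_num)).mul_left 4
  refine ⟨∑' m : ℕ, 4 * (1 / (m : ℝ) ^ (3 / 2 : ℝ)), tsum_nonneg fun m => by positivity,
    fun N => ?_⟩
  let P := (Icc 1 N).filter Nat.Prime
  have h1 : ∑ d ∈ (Icc 1 N).filter (fun d => ¬ d.Prime), vonMangoldt d / d ≤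
      ∑ d ∈ (P ×ˢ range N).image (fun q => q.1 ^ (q.2 + 2)), vonMangoldt d / (d : ℝ) := by
    rw [← sum_filter_ne_zero]
    refine sum_le_sum_of_subset_of_nonneg (fun d hd => ?_)
      fun p _ _ => div_nonneg vonMangoldt_nonneg (Nat.cast_nonneg _)
    rw [mem_filter] at hd
    obtain ⟨hd, hne⟩ := hd
    rw [mem_filter, mem_Icc] at hd
    have hpp : IsPrimePow d := by
      by_contra hc
      exact hne (by rw [vonMangoldt_eq_zero_iff.2 hc, zero_div])
    obtain ⟨p, k, hp, hk, rfl⟩ := (isPrimePow_nat_iff _).1 hpp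
    have hk2 : 2 ≤ k := by
      by_contra hc
      have : k = 1 := by omega
      subst this
      exact hd.2 (by simpa using hp)
    have hk3 : k < p ^ k := Nat.lt_pow_self hp.one_lt
    have hp2 : p ≤ p ^ k := Nat.le_self_pow (by omega) p
    refine mem_image.2 ⟨(p, k - 2), ?_, by simp only; congr 1; omega⟩
    simp only [P, mem_product, mem_filter, mem_Icc, mem_range]
    exact ⟨⟨⟨hp.one_le, by omega⟩, hp⟩, by omega⟩
  refine h1.trans ((sum_image_le_of_nonneg fun d _ => div_nonneg vonMangoldt_nonneg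
    (Nat.cast_nonneg _)).trans ?_)
  rw [sum_product]
  refine le_trans (sum_le_sum fun p hp => ?_) (hs.sum_le_tsum P fun m _ => by positivity)
  have hpr : p.Prime := (mem_filter.1 hp).2
  have hp2 : (2 : ℝ) ≤ p := by exact_mod_cast hpr.two_le
  have hp0 : (0 : ℝ) < p := by linarith
  have h2 : ∀ k ∈ range N, vonMangoldt (p ^ (k + 2)) / ((p ^ (k + 2) : ℕ) : ℝ) ≤
      Real.log p / p ^ 2 * (1 / 2) ^ k := by
    intro k _
    rw [vonMangoldt_apply_pow (by omega), vonMangoldt_apply_prime hpr]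
    have hl : 0 ≤ Real.log p := Real.log_nonneg (by linarith)
    push_cast
    rw [one_div, inv_pow, ← div_eq_mul_inv, div_div, pow_add, mul_comm ((p : ℝ) ^ k)]
    gcongr
  refine (sum_le_sum h2).trans ?_
  rw [← mul_sum]
  have h3 := sum_geometric_two_le N
  have h4 : Real.log p ≤ (p : ℝ) ^ (1 / 2 : ℝ) / (1 / 2) := Real.log_le_rpow_div hp0.le (by norm_num)
  have h5 : (p : ℝ) ^ (1 / 2 : ℝ) * (p : ℝ) ^ (3 / 2 : ℝ) = p ^ 2 := by
    rw [← Real.rpow_add hp0]; norm_num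
  have h6 : 0 < (p : ℝ) ^ (3 / 2 : ℝ) := by positivity
  have h7 : 0 < (p : ℝ) ^ (1 / 2 : ℝ) := by positivity
  calc Real.log p / p ^ 2 * ∑ k ∈ range N, (1 / 2 : ℝ) ^ k
      ≤ ((p : ℝ) ^ (1 / 2 : ℝ) / (1 / 2)) / p ^ 2 * 2 := by
        gcongr
    _ = _ := by rw [← h5]; field_simp; norm_num

/-- the primes in `(a, b]` -/
noncomputable def prs (a b : ℝ) : Finset ℕ :=
  (Icc 1 ⌊b⌋₊).filter fun p => p.Prime ∧ a < (p : ℝ)

/-- the sum of reciprocals -/
noncomputable def PS (a b : ℝ) : ℝ := ∑ p ∈ prs a b, 1 / (p : ℝ)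

lemma mem_prs {a b : ℝ} (hb : 0 ≤ b) {p : ℕ} :
    p ∈ prs a b ↔ p.Prime ∧ a < (p : ℝ) ∧ (p : ℝ) ≤ b := by
  simp only [prs, mem_filter, mem_Icc, Nat.le_floor_iff hb]
  constructor
  · rintro ⟨⟨_, h⟩, h1, h2⟩
    exact ⟨h1, h2, h⟩
  · rintro ⟨h1, h2, h⟩
    exact ⟨⟨h1.one_le, h⟩, h1, h2⟩

lemma PS_mono {a b c : ℝ} (hb : 0 ≤ b) (hc : b ≤ c) : PS a b ≤ PS a c := by
  refine sum_le_sum_of_subset_of_nonneg (fun p hp => ?_) fun p _ _ => by positivity
  rw [mem_prs hb] at hp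
  exact (mem_prs (hb.trans hc)).2 ⟨hp.1, hp.2.1, hp.2.2.trans hc⟩

lemma PS_add {a b c : ℝ} (ha : a ≤ b) (hb : 0 ≤ b) (hc : b ≤ c) : PS a c = PS a b + PS b c := by
  unfold PS
  rw [← sum_union]
  · congr 1
    ext p
    simp only [mem_union, mem_prs hb, mem_prs (hb.trans hc)]
    constructor
    · rintro ⟨h1, h2, h3⟩
      rcases le_or_gt (p : ℝ) b with h | h
      · exact Or.inl ⟨h1, h2, h⟩
      · exact Or.inr ⟨h1, h, h3⟩
    · rintro (⟨h1, h2, h3⟩ | ⟨h1, h2, h3⟩)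
      · exact ⟨h1, h2, h3.trans hc⟩
      · exact ⟨h1, ha.trans_lt h2, h3⟩
  · rw [disjoint_left]
    intro p h1 h2
    rw [mem_prs hb] at h1
    rw [mem_prs (hb.trans hc)] at h2
    linarith [h1.2.2, h2.2.1]

lemma block_up (h : Lam) {z : ℝ} (hz0 : 0 < z) (hz : 1 ≤ Real.log z) : PS z (z ^ 2) ≤ 72 := by
  have hl : 0 < Real.log z := by linarith
  have h1 := up h (x := z ^ 2) (by positivity) (by rw [Real.log_pow]; push_cast; linarith)
  rw [Real.log_pow] at h1
  have h2 : PS z (z ^ 2) * Real.log z ≤ ∑ n ∈ Icc 1 ⌊z ^ 2⌋₊, vonMangoldt n / n := by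
    unfold PS
    rw [sum_mul]
    refine le_trans (sum_le_sum fun p hp => ?_) (sum_le_sum_of_subset_of_nonneg
      (filter_subset _ _) fun p _ _ => div_nonneg vonMangoldt_nonneg (Nat.cast_nonneg _))
    rw [mem_prs (by positivity)] at hp
    rw [vonMangoldt_apply_prime hp.1, one_div_mul_eq_div]
    gcongr
    exact hp.2.1.le
  push_cast at h1
  exact le_of_mul_le_mul_right (by linarith) hl

lemma one_le_of_log {z : ℝ} (hz0 : 0 < z) (hz : 1 ≤ Real.log z) : 1 ≤ z := by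
  by_contra hc
  have := Real.log_nonpos hz0.le (not_le.1 hc).le
  linarith

lemma chain_up (h : Lam) {z : ℝ} (hz0 : 0 < z) (hz : 1 ≤ Real.log z) (j : ℕ) :
    PS z (z ^ (2 ^ j)) ≤ 72 * j := by
  have h1 := one_le_of_log hz0 hz
  induction j with
  | zero =>
    have : prs z (z ^ 2 ^ 0) = ∅ := by
      ext p
      rw [mem_prs (by positivity)]
      simp only [pow_zero, pow_one, notMem_empty, iff_false]
      rintro ⟨_, h2, h3⟩
      linarith
    simp only [PS, this]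
    simp
  | succ j ih =>
    have h2 : 1 ≤ 2 ^ j := Nat.one_le_two_pow
    have h3 : z ≤ z ^ 2 ^ j := le_self_pow₀ h1 (by omega)
    rw [PS_add (b := z ^ 2 ^ j) h3 (by positivity) (pow_le_pow_right₀ h1 (by rw [pow_succ]; omega)),
      pow_succ 2 j, pow_mul]
    have := block_up h (z := z ^ 2 ^ j) (by positivity) (hz.trans (Real.log_le_log hz0 h3))
    push_cast
    linarith

lemma block_low (h : Lam) {C₀ : ℝ} (hC0 : 0 ≤ C₀) (hC : ∀ N : ℕ,
    ∑ d ∈ (Icc 1 N).filter (fun d => ¬ d.Prime), vonMangoldt d / d ≤ C₀) {z : ℝ} (hz0 : 0 < z)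
    (hz : C₀ + 2 ≤ Real.log z) : 1 / 2 ≤ PS z (z ^ 100) := by
  have hl : 1 ≤ Real.log z := by linarith
  have h1 := one_le_of_log hz0 hl
  have hN : 1 ≤ ⌊z ^ 100⌋₊ := Nat.le_floor (by simpa using one_le_pow₀ h1)
  have h2 := low hN
  have h3 : 100 * Real.log z - 1 ≤ Real.log ⌊z ^ 100⌋₊ := by
    have h4 : z ^ 100 ≤ 2 * (⌊z ^ 100⌋₊ : ℝ) := by
      have := Nat.lt_floor_add_one (z ^ 100)
      have : (1 : ℝ) ≤ ⌊z ^ 100⌋₊ := by exact_mod_cast hN
      linarith
    have h5 := Real.log_le_log (by positivity) h4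
    have h6 : (0 : ℝ) < ⌊z ^ 100⌋₊ := by exact_mod_cast hN
    rw [Real.log_pow, Real.log_mul (by norm_num) h6.ne'] at h5
    push_cast at h5
    linarith [Real.log_two_lt_d9]
  have h4 : ∑ d ∈ Icc 1 ⌊z ^ 100⌋₊, vonMangoldt d / d ≤
      ∑ d ∈ (Icc 1 ⌊z ^ 100⌋₊).filter (fun d => ¬ d.Prime), vonMangoldt d / d +
      (∑ d ∈ Icc 1 ⌊z⌋₊, vonMangoldt d / d + ∑ d ∈ prs z (z ^ 100), vonMangoldt d / d) := by
    rw [← sum_filter_add_sum_filter_not (Icc 1 ⌊z ^ 100⌋₊) (fun d => ¬ d.Prime)]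
    gcongr
    rw [← sum_union]
    · refine sum_le_sum_of_subset_of_nonneg (fun p hp => ?_)
        fun p _ _ => div_nonneg vonMangoldt_nonneg (Nat.cast_nonneg _)
      rw [mem_filter, not_not] at hp
      rw [mem_union]
      rcases le_or_gt (p : ℝ) z with h5 | h5
      · exact Or.inl (mem_Icc.2 ⟨hp.2.one_le, Nat.le_floor h5⟩)
      · exact Or.inr (mem_filter.2 ⟨hp.1, hp.2, h5⟩)
    · rw [disjoint_left]
      intro p h5 h6
      rw [mem_prs (by positivity)] at h6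
      have := (Nat.le_floor_iff hz0.le).1 (mem_Icc.1 h5).2
      linarith [h6.2.1]
  have h5 : ∑ d ∈ prs z (z ^ 100), vonMangoldt d / d ≤ PS z (z ^ 100) * (100 * Real.log z) := by
    unfold PS
    rw [sum_mul]
    refine sum_le_sum fun p hp => ?_
    rw [mem_prs (by positivity)] at hp
    rw [vonMangoldt_apply_prime hp.1, one_div_mul_eq_div]
    have hp0 : (0 : ℝ) < p := by exact_mod_cast hp.1.pos
    have := Real.log_le_log hp0 hp.2.2
    rw [Real.log_pow] at this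
    push_cast at this
    gcongr
  have h6 := up h hz0 hl
  have h7 := hC ⌊z ^ 100⌋₊
  have h8 : 1 / 2 * (100 * Real.log z) ≤ PS z (z ^ 100) * (100 * Real.log z) := by linarith
  exact le_of_mul_le_mul_right h8 (by linarith)

lemma chain_low (h : Lam) {C₀ : ℝ} (hC0 : 0 ≤ C₀) (hC : ∀ N : ℕ,
    ∑ d ∈ (Icc 1 N).filter (fun d => ¬ d.Prime), vonMangoldt d / d ≤ C₀) {z : ℝ} (hz0 : 0 < z)
    (hz : C₀ + 2 ≤ Real.log z) (j : ℕ) : j / 2 ≤ PS z (z ^ (100 ^ j)) := by
  have h1 := one_le_of_log hz0 (by linarith)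
  induction j with
  | zero =>
    simp only [Nat.cast_zero, zero_div]
    exact sum_nonneg fun p _ => by positivity
  | succ j ih =>
    have h2 : 1 ≤ 100 ^ j := Nat.one_le_pow _ _ (by norm_num)
    have h3 : z ≤ z ^ 100 ^ j := le_self_pow₀ h1 (by omega)
    rw [PS_add (b := z ^ 100 ^ j) h3 (by positivity)
      (pow_le_pow_right₀ h1 (by rw [pow_succ]; omega)), pow_succ 100 j, pow_mul]
    have := block_low h hC0 hC (z := z ^ 100 ^ j) (by positivity)
      (hz.trans (Real.log_le_log hz0 h3))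
    push_cast
    linarith

end Pool.Agent.MP_ca0a54_nt.H47
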