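import Pool.Agent.MP_ca0a54_nt.H47.PrA

/-! Row PRIMES. -/

open Finset Filter

namespace Pool.Agent.MP_ca0a54_nt.H47

open Pool.Agent.MP_ca0a54_nt.H24 ArithmeticFunction

/-- the real number inside `pc` -/
noncomputable def pcr (y α : ℝ) (d : ℕ) : ℝ :=
  vonMangoldt d * (1 - Real.exp (-y * Real.log d)) / Real.log d * Real.exp (-α * Real.log d)

lemma term_eq (y α : ℝ) (d : ℕ) (P : Prop) [Decidable P] :
    ‖pc y α d - (if P then 1 else 0)‖ ^ 2 = (pcr y α d - if P then 1 else 0) ^ 2 := by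
  have : pc y α d - (if P then 1 else 0) = ((pcr y α d - if P then 1 else 0 : ℝ) : ℂ) := by
    unfold pc pcr
    split_ifs <;> simp
  rw [this, Complex.norm_real, Real.norm_eq_abs, sq_abs]

lemma pcr_bounds {y α : ℝ} (hy : 0 ≤ y) (hα : 0 ≤ α) (d : ℕ) :
    0 ≤ pcr y α d ∧ pcr y α d ≤ vonMangoldt d / Real.log d * (1 - Real.exp (-y * Real.log d)) := by
  have hl : 0 ≤ Real.log d := Real.log_natCast_nonneg d
  have h1 : Real.exp (-y * Real.log d) ≤ 1 := Real.exp_le_one_iff.2 (by nlinarith)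
  have h2 : Real.exp (-α * Real.log d) ≤ 1 := Real.exp_le_one_iff.2 (by nlinarith)
  have h3 : 0 ≤ vonMangoldt d * (1 - Real.exp (-y * Real.log d)) / Real.log d :=
    div_nonneg (mul_nonneg vonMangoldt_nonneg (by linarith)) hl
  refine ⟨mul_nonneg h3 (Real.exp_pos _).le, ?_⟩
  calc pcr y α d ≤ vonMangoldt d * (1 - Real.exp (-y * Real.log d)) / Real.log d * 1 :=
        mul_le_mul_of_nonneg_left h2 h3
    _ = _ := by ring

lemma ratio_le (d : ℕ) : vonMangoldt d / Real.log d ≤ 1 :=
  div_le_one_of_le₀ vonMangoldt_le_log (Real.log_natCast_nonneg d)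

lemma pcr_le_one {y α : ℝ} (hy : 0 ≤ y) (hα : 0 ≤ α) (d : ℕ) : pcr y α d ≤ 1 := by
  have h1 := (pcr_bounds hy hα d).2
  have h2 := ratio_le d
  have h3 : 0 ≤ vonMangoldt d / Real.log d :=
    div_nonneg vonMangoldt_nonneg (Real.log_natCast_nonneg d)
  have h4 := Real.exp_pos (-y * Real.log d)
  nlinarith

lemma sq_np {y α : ℝ} (hy : 0 ≤ y) (hα : 0 ≤ α) (d : ℕ) : pcr y α d ^ 2 ≤ 2 * vonMangoldt d := by
  have h0 := pcr_bounds hy hα d
  have h1 := pcr_le_one hy hα d
  have h3 : 0 ≤ vonMangoldt d / Real.log d :=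
    div_nonneg vonMangoldt_nonneg (Real.log_natCast_nonneg d)
  have h4 := Real.exp_pos (-y * Real.log d)
  have h5 : vonMangoldt d / Real.log d ≤ 2 * vonMangoldt d := by
    rcases lt_or_ge d 2 with h | h
    · interval_cases d <;> simp
    · have h6 : (2 : ℝ) ≤ d := by exact_mod_cast h
      have h7 : 1 / 2 ≤ Real.log d := by
        have := Real.log_le_log (by norm_num) h6
        linarith [Real.log_two_gt_d9]
      rw [div_le_iff₀ (by linarith)]
      nlinarith [vonMangoldt_nonneg (n := d)]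
  nlinarith

lemma sq_small {y α : ℝ} (hy : 0 ≤ y) (hα : 0 ≤ α) {d : ℕ} (hd : d.Prime) :
    pcr y α d ^ 2 ≤ y * vonMangoldt d := by
  have h0 := pcr_bounds hy hα d
  have h1 := pcr_le_one hy hα d
  have h2 := ratio_le d
  have h3 : 0 ≤ vonMangoldt d / Real.log d :=
    div_nonneg vonMangoldt_nonneg (Real.log_natCast_nonneg d)
  have h4 := Real.add_one_le_exp (-y * Real.log d)
  have h5 : Real.exp (-y * Real.log d) ≤ 1 :=
    Real.exp_le_one_iff.2 (by nlinarith [Real.log_natCast_nonneg d])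
  rw [vonMangoldt_apply_prime hd] at h0 h2 h3 ⊢
  have h6 : pcr y α d ≤ 1 - Real.exp (-y * Real.log d) := by nlinarith
  nlinarith

lemma sq_mid {y α : ℝ} (hy : 0 ≤ y) (hα : 0 ≤ α) {d : ℕ} (hd : d.Prime)
    (h1 : 1 ≤ y * Real.log d) : (pcr y α d - 1) ^ 2 ≤
      y * (vonMangoldt d * Real.exp (-y * Real.log d)) + α * vonMangoldt d := by
  have h0 := (pcr_bounds hy hα d).1
  have h2 := pcr_le_one hy hα d
  have hl : 0 < Real.log d := Real.log_pos (by exact_mod_cast hd.one_lt)
  have h3 : pcr y α d = (1 - Real.exp (-y * Real.log d)) * Real.exp (-α * Real.log d) := by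
    unfold pcr
    rw [vonMangoldt_apply_prime hd]
    field_simp
  have h4 := Real.add_one_le_exp (-α * Real.log d)
  have h5 : Real.exp (-α * Real.log d) ≤ 1 := Real.exp_le_one_iff.2 (by nlinarith)
  have h6 := Real.exp_pos (-y * Real.log d)
  have h7 : 1 - pcr y α d ≤ Real.exp (-y * Real.log d) + α * Real.log d := by
    rw [h3]
    nlinarith
  rw [vonMangoldt_apply_prime hd]
  have h8 : Real.exp (-y * Real.log d) ≤ y * (Real.log d * Real.exp (-y * Real.log d)) := by
    nlinarith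
  nlinarith

lemma sum_ind {S T : Finset ℕ} {f : ℕ → ℝ} (hf : ∀ d ∈ T, 0 ≤ f d) :
    ∑ d ∈ S, (if d ∈ T then f d else 0) ≤ ∑ d ∈ T, f d := by
  rw [← sum_filter]
  exact sum_le_sum_of_subset_of_nonneg (fun d hd => (mem_filter.1 hd).2) fun d hd _ => hf d hd

theorem primes : Ar1Stmt → PrimesStmt := by
  intro har
  have h : Lam := har.2.2.2.2.2.2.2
  obtain ⟨C₀, hC0, hC⟩ := pp
  refine ⟨2 * C₀ + 400, by linarith, fun κ κ' hκ hκκ hκ' => ⟨?_, fun A hA hAκ => ?_⟩⟩
  · have ev : ∀ᶠ T : ℝ in atTop, (C₀ + 2) / κ ≤ Real.log T :=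
      Real.tendsto_log_atTop.eventually_ge_atTop _
    filter_upwards [ev, eventually_ge_atTop (1 : ℝ)] with T hT hT1
    have hT0 : 0 < T := by linarith
    have hq : 1 < κ' / κ := (one_lt_div hκ).2 hκκ
    have hl : 0 ≤ Real.log (κ' / κ) := Real.log_nonneg hq.le
    have h100 : Real.log 100 ≤ 5 := by
      rw [Real.log_le_iff_le_exp (by norm_num), show (5 : ℝ) = (5 : ℕ) * 1 by norm_num,
        Real.exp_nat_mul]
      have := Real.exp_one_gt_d9
      calc (100 : ℝ) ≤ 2.7 ^ 5 := by norm_num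
        _ ≤ Real.exp 1 ^ 5 := by gcongr; linarith
    have h1000 : 0 < Real.log 100 := Real.log_pos (by norm_num)
    set j := ⌊Real.log (κ' / κ) / Real.log 100⌋₊ with hj
    have hj1 : (j : ℝ) ≤ Real.log (κ' / κ) / Real.log 100 := Nat.floor_le (by positivity)
    have hj2 : Real.log (κ' / κ) / Real.log 100 < j + 1 := Nat.lt_floor_add_one _
    have hj3 : (100 : ℝ) ^ j ≤ κ' / κ := by
      rw [← Real.log_le_log_iff (by positivity) (by positivity), Real.log_pow]
      rwa [le_div_iff₀ h1000] at hj1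
    have hz : C₀ + 2 ≤ Real.log (T ^ κ) := by
      rw [Real.log_rpow hT0]
      rw [div_le_iff₀ hκ] at hT
      linarith
    have h2 := chain_low h hC0 hC (z := T ^ κ) (by positivity) hz j
    have h3 : (T ^ κ) ^ (100 ^ j) ≤ T ^ κ' := by
      rw [← Real.rpow_natCast, ← Real.rpow_mul hT0.le]
      apply Real.rpow_le_rpow_of_exponent_le hT1
      push_cast
      rw [le_div_iff₀ hκ] at hj3
      linarith
    have h4 := PS_mono (a := T ^ κ) (by positivity) h3
    have h5 : Real.log (κ' / κ) / (2 * C₀ + 400) ≤ Real.log (κ' / κ) / (2 * Real.log 100) := by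
      gcongr
      linarith
    have h6 : Real.log (κ' / κ) / (2 * Real.log 100) = Real.log (κ' / κ) / Real.log 100 / 2 := by
      field_simp
    change _ ≤ PS (T ^ κ) (T ^ κ')
    linarith
  · have ev : ∀ᶠ T : ℝ in atTop, 1 / κ ≤ Real.log T :=
      Real.tendsto_log_atTop.eventually_ge_atTop _
    filter_upwards [ev, eventually_ge_atTop (1 : ℝ)] with T hT hT1 α hα0 hα
    have hT0 : 0 < T := by linarith
    have hκ0 : 0 < κ' := hκ.trans hκκ
    have hL : 0 < Real.log T := lt_of_lt_of_le (by positivity) hT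
    set y := 1 / κ / Real.log T with hy
    have hy0 : 0 < y := by positivity
    have hy1 : y ≤ 1 := by rw [hy, div_le_one hL]; exact hT
    have hz : 1 ≤ Real.log (T ^ κ) := by
      rw [Real.log_rpow hT0]
      rw [div_le_iff₀ hκ] at hT
      linarith
    have hz' : 1 ≤ Real.log (T ^ κ') := hz.trans (Real.log_le_log (by positivity)
      (Real.rpow_le_rpow_of_exponent_le hT1 hκκ.le))
    set X := ⌊T ^ (1 / 3 : ℝ)⌋₊ with hX
    have key : ∀ d ∈ Icc 1 X, ‖pc y α d - (if d ∈ pr T κ κ' then 1 else 0)‖ ^ 2 / d ≤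
        (if ¬ d.Prime then 2 * (vonMangoldt d / d) else 0) +
        (if d ∈ Icc 1 ⌊T ^ κ⌋₊ then y * (vonMangoldt d / d) else 0) +
        y * (vonMangoldt d * Real.exp (-(1 + y) * Real.log d)) +
        (if d ∈ Icc 1 ⌊T ^ κ'⌋₊ then α * (vonMangoldt d / d) else 0) +
        (if d ∈ prs (T ^ κ') (T ^ (1 / 3 : ℝ)) then 1 / (d : ℝ) else 0) := by
      intro d hd
      have hd1 := (mem_Icc.1 hd).1
      have hd0 : (0 : ℝ) < d := by exact_mod_cast hd1
      have hv : (0 : ℝ) ≤ vonMangoldt d / d := div_nonneg vonMangoldt_nonneg hd0.le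
      have n1 : (0 : ℝ) ≤ if ¬ d.Prime then 2 * (vonMangoldt d / d) else 0 := by
        split_ifs <;> positivity
      have n2 : (0 : ℝ) ≤ if d ∈ Icc 1 ⌊T ^ κ⌋₊ then y * (vonMangoldt d / d) else 0 := by
        split_ifs <;> positivity
      have n3 : (0 : ℝ) ≤ y * (vonMangoldt d * Real.exp (-(1 + y) * Real.log d)) :=
        mul_nonneg hy0.le (mul_nonneg vonMangoldt_nonneg (Real.exp_pos _).le)
      have n4 : (0 : ℝ) ≤ if d ∈ Icc 1 ⌊T ^ κ'⌋₊ then α * (vonMangoldt d / d) else 0 := by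
        split_ifs <;> positivity
      have n5 : (0 : ℝ) ≤ if d ∈ prs (T ^ κ') (T ^ (1 / 3 : ℝ)) then 1 / (d : ℝ) else 0 := by
        split_ifs <;> positivity
      rw [term_eq]
      have hpr : pr T κ κ' = prs (T ^ κ) (T ^ κ') := rfl
      by_cases hp : d.Prime
      · by_cases hm : d ∈ pr T κ κ'
        · rw [if_pos hm]
          rw [hpr, mem_prs (by positivity)] at hm
          have h1 : 1 ≤ y * Real.log d := by
            have h2 := Real.log_le_log (by positivity) hm.2.1.le
            rw [Real.log_rpow hT0] at h2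
            calc (1 : ℝ) = y * (κ * Real.log T) := by rw [hy]; field_simp
              _ ≤ _ := by gcongr
          have h2 := div_le_div_of_nonneg_right (sq_mid hy0.le hα0 hp h1) hd0.le
          rw [if_pos (mem_Icc.2 ⟨hd1, Nat.le_floor hm.2.2⟩ : d ∈ Icc 1 ⌊T ^ κ'⌋₊), exp_split hd1]
          have h3 : (y * (vonMangoldt d * Real.exp (-y * Real.log d)) + α * vonMangoldt d) / d =
              y * (vonMangoldt d * (Real.exp (-y * Real.log d) / d)) +
                α * (vonMangoldt d / d) := by ring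
          linarith
        · rw [if_neg hm, sub_zero]
          rcases le_or_gt (d : ℝ) (T ^ κ) with h1 | h1
          · have h2 := div_le_div_of_nonneg_right (sq_small hy0.le hα0 hp) hd0.le
            rw [if_pos (mem_Icc.2 ⟨hd1, Nat.le_floor h1⟩ : d ∈ Icc 1 ⌊T ^ κ⌋₊)]
            rw [mul_div_assoc] at h2
            linarith
          · have h2 : T ^ κ' < d := by
              by_contra hc
              exact hm (by rw [hpr, mem_prs (by positivity)]; exact ⟨hp, h1, not_lt.1 hc⟩)
            have h3 : d ∈ prs (T ^ κ') (T ^ (1 / 3 : ℝ)) := (mem_prs (by positivity)).2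
              ⟨hp, h2, (Nat.le_floor_iff (by positivity)).1 (mem_Icc.1 hd).2⟩
            rw [if_pos h3]
            have h4 : pcr y α d ^ 2 ≤ 1 := by
              nlinarith [(pcr_bounds hy0.le hα0 d).1, pcr_le_one hy0.le hα0 d]
            have h5 := div_le_div_of_nonneg_right h4 hd0.le
            linarith
      · have hm : d ∉ pr T κ κ' := fun hm => hp (mem_filter.1 hm).2.1
        rw [if_neg hm, sub_zero, if_pos hp]
        have h2 := div_le_div_of_nonneg_right (sq_np hy0.le hα0 d) hd0.le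
        rw [mul_div_assoc] at h2
        linarith
    refine (sum_le_sum key).trans ?_
    simp only [sum_add_distrib]
    have s1 : ∑ d ∈ Icc 1 X, (if ¬ d.Prime then 2 * (vonMangoldt d / d) else 0 : ℝ) ≤ 2 * C₀ := by
      rw [← sum_filter, ← mul_sum]
      linarith [hC X]
    have hv : ∀ d : ℕ, (0 : ℝ) ≤ vonMangoldt d / d := fun d =>
      div_nonneg vonMangoldt_nonneg (Nat.cast_nonneg _)
    have s2 : ∑ d ∈ Icc 1 X, (if d ∈ Icc 1 ⌊T ^ κ⌋₊ then y * (vonMangoldt d / d) else 0) ≤ 36 := by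
      refine (sum_ind fun d _ => mul_nonneg hy0.le (hv d)).trans ?_
      rw [← mul_sum]
      have h1 := up h (x := T ^ κ) (by positivity) hz
      rw [Real.log_rpow hT0] at h1
      calc _ ≤ y * (36 * (κ * Real.log T)) := by gcongr
        _ = 36 := by rw [hy]; field_simp
    have s3 : ∑ d ∈ Icc 1 X, y * (vonMangoldt d * Real.exp (-(1 + y) * Real.log d)) ≤ 12 := by
      rw [← mul_sum]
      calc _ ≤ y * (12 / y) := mul_le_mul_of_nonneg_left (h y X hy0 hy1) hy0.le
        _ = 12 := by field_simp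
    have s4 : ∑ d ∈ Icc 1 X, (if d ∈ Icc 1 ⌊T ^ κ'⌋₊ then α * (vonMangoldt d / d) else 0) ≤
        144 := by
      refine (sum_ind fun d _ => mul_nonneg hα0 (hv d)).trans ?_
      rw [← mul_sum]
      have h1 := up h (x := T ^ κ') (by positivity) hz'
      rw [Real.log_rpow hT0] at h1
      calc _ ≤ 4 * A / Real.log T * (36 * (κ' * Real.log T)) :=
            mul_le_mul hα h1 (sum_nonneg fun d _ => hv d) (by positivity)
        _ = 144 * (A * κ') := by field_simp; ring
        _ ≤ 144 := by linarith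
    have hl : 0 ≤ Real.log (1 / κ') := Real.log_nonneg (by rw [le_div_iff₀ hκ0]; linarith)
    have s5 : ∑ d ∈ Icc 1 X, (if d ∈ prs (T ^ κ') (T ^ (1 / 3 : ℝ)) then 1 / (d : ℝ) else 0) ≤
        72 * (2 * Real.log (1 / κ') + 1) := by
      refine (sum_ind fun d _ => by positivity).trans ?_
      set j := ⌈2 * Real.log (1 / κ')⌉₊ with hj
      have hj1 : 2 * Real.log (1 / κ') ≤ j := Nat.le_ceil _
      have hj2 : (j : ℝ) < 2 * Real.log (1 / κ') + 1 := Nat.ceil_lt_add_one (by positivity)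
      have hj3 : 1 / κ' ≤ (2 : ℝ) ^ j := by
        rw [← Real.log_le_log_iff (by positivity) (by positivity), Real.log_pow]
        nlinarith [Real.log_two_gt_d9]
      have h2 := chain_up h (z := T ^ κ') (by positivity) hz' j
      have h3 : T ^ (1 / 3 : ℝ) ≤ (T ^ κ') ^ (2 ^ j) := by
        rw [← Real.rpow_natCast, ← Real.rpow_mul hT0.le]
        apply Real.rpow_le_rpow_of_exponent_le hT1
        push_cast
        rw [div_le_iff₀ hκ0] at hj3
        linarith
      have h4 := PS_mono (a := T ^ κ') (by positivity) h3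
      change PS _ _ ≤ _
      linarith
    nlinarith

end Pool.Agent.MP_ca0a54_nt.H47
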